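import Pool.Agent.Q27.Graphical.Group

/-!
# Counting over finite chain rings
-/

set_option autoImplicit false
set_option linter.unusedSectionVars false

open Finset

namespace Q27.Graphical

/-- `R` is a finite chain ring with uniformizer `ϖ`, of length `k` over a residue field with `q`
elements. -/
structure IsChain (R : Type*) [CommRing R] (ϖ : R) (q k : ℕ) : Prop where
  two_le : 2 ≤ q
  fact : ∀ x : R, ∃ i ≤ k, ∃ u : Rˣ, x = ϖ ^ i * u
  card : ∀ i ≤ k, Nat.card {x : R // ϖ ^ i ∣ x} = q ^ (k - i)
  finite : Finite R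

section

variable {R : Type*} [CommRing R] {ϖ : R} {q k : ℕ}

/-- `w ∈ R²` is `ϖ^α` times a vector with a unit coordinate. -/
def HasVal (ϖ : R) (k : ℕ) (w : R × R) (α : ℕ) : Prop :=
  α ≤ k ∧ ∃ c d : R, w = (ϖ ^ α * c, ϖ ^ α * d) ∧ (IsUnit c ∨ IsUnit d)

theorem IsChain.pow_eq_zero (h : IsChain R ϖ q k) : ϖ ^ k = 0 := by
  have h1 := h.card k le_rfl
  rw [Nat.sub_self, pow_zero] at h1
  obtain ⟨h2, _⟩ := Nat.card_eq_one_iff_unique.1 h1
  have := h2.elim ⟨ϖ ^ k, dvd_rfl⟩ ⟨0, dvd_zero _⟩
  exact congrArg Subtype.val this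

theorem IsChain.pow_ne_zero (h : IsChain R ϖ q k) {i : ℕ} (hi : i < k) : ϖ ^ i ≠ 0 := by
  intro h0
  have h1 := h.card i hi.le
  have h2 : Nat.card {x : R // ϖ ^ i ∣ x} = 1 := by
    rw [Nat.card_eq_one_iff_unique]
    refine ⟨⟨fun x y => ?_⟩, ⟨⟨0, dvd_zero _⟩⟩⟩
    have hx : ϖ ^ i ∣ x.1 := x.2
    have hy : ϖ ^ i ∣ y.1 := y.2
    have hx' : x.1 = 0 := zero_dvd_iff.1 (h0 ▸ hx)
    have hy' : y.1 = 0 := zero_dvd_iff.1 (h0 ▸ hy)
    exact Subtype.ext (hx'.trans hy'.symm)
  rw [h2] at h1
  have h3 : 2 ^ (k - i) ≤ q ^ (k - i) := Nat.pow_le_pow_left h.two_le _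
  have h4 : 2 ^ 1 ≤ 2 ^ (k - i) := Nat.pow_le_pow_right (by norm_num) (by omega)
  omega

theorem IsChain.pow_zero_of_le (h : IsChain R ϖ q k) {i : ℕ} (hi : k ≤ i) : ϖ ^ i = 0 := by
  obtain ⟨j, rfl⟩ := Nat.exists_eq_add_of_le hi
  rw [pow_add, h.pow_eq_zero, zero_mul]

theorem IsChain.card_univ (h : IsChain R ϖ q k) : Nat.card R = q ^ k := by
  have h1 := h.card 0 (Nat.zero_le _)
  rw [Nat.sub_zero] at h1
  rw [← h1]
  exact (Nat.card_congr (Equiv.subtypeUnivEquiv (fun x => by simp))).symm

theorem IsChain.exists_hasVal (h : IsChain R ϖ q k) (w : R × R) : ∃ α, HasVal ϖ k w α := by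
  obtain ⟨i, hi, u, hu⟩ := h.fact w.1
  obtain ⟨j, hj, v, hv⟩ := h.fact w.2
  rcases le_total i j with hij | hij
  · refine ⟨i, hi, u, ϖ ^ (j - i) * v, ?_, Or.inl u.isUnit⟩
    ext
    · exact hu
    · simp only
      rw [hv, ← mul_assoc, ← pow_add, Nat.add_sub_cancel' hij]
  · refine ⟨j, hj, ϖ ^ (i - j) * u, v, ?_, Or.inr v.isUnit⟩
    ext
    · simp only
      rw [hu, ← mul_assoc, ← pow_add, Nat.add_sub_cancel' hij]
    · exact hv

/-- The annihilator of `ϖ^α`. -/
theorem IsChain.dvd_of_mul_eq_zero (h : IsChain R ϖ q k) {α : ℕ} {z : R}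
    (hz : ϖ ^ α * z = 0) : ϖ ^ (k - α) ∣ z := by
  obtain ⟨i, hi, u, rfl⟩ := h.fact z
  have h1 : ϖ ^ (α + i) = 0 := by
    rw [pow_add]
    have := congrArg (· * ((u⁻¹ : Rˣ) : R)) hz
    simpa [mul_assoc] using this
  have h2 : k ≤ α + i := by
    by_contra hlt
    exact h.pow_ne_zero (not_le.1 hlt) h1
  exact Dvd.dvd.mul_right (pow_dvd_pow _ (by omega)) _

/-- The number of `z ∈ ϖ^β R` with `ϖ^α z = 0` is at most `q^(min α (k-β))`. -/
theorem IsChain.card_ann_le (h : IsChain R ϖ q k) {α β : ℕ} (hα : α ≤ k) (hβ : β ≤ k) :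
    Nat.card {z : R // ϖ ^ β ∣ z ∧ ϖ ^ α * z = 0} ≤ q ^ (min α (k - β)) := by
  have := h.finite
  rcases le_total α (k - β) with h1 | h1
  · rw [min_eq_left h1]
    calc _ ≤ Nat.card {z : R // ϖ ^ (k - α) ∣ z} :=
          Nat.card_le_card_of_injective
            (fun z => ⟨z.1, h.dvd_of_mul_eq_zero z.2.2⟩) (fun x y hxy => by
              have h2 : x.1 = y.1 := congrArg (fun t => t.1) hxy
              exact Subtype.ext h2)
      _ = q ^ α := by
        rw [h.card (k - α) (by omega)]
        congr 1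
        omega
  · rw [min_eq_right h1, ← h.card β hβ]
    exact Nat.card_le_card_of_injective
            (fun z => ⟨z.1, z.2.1⟩) (fun x y hxy => by
              have h2 : x.1 = y.1 := congrArg (fun t => t.1) hxy
              exact Subtype.ext h2)

/-- `w'` is divisible by `ϖ^β` and has determinant `0` with `w`. -/
def Sol (ϖ : R) (β : ℕ) (w w' : R × R) : Prop :=
  (ϖ ^ β ∣ w'.1 ∧ ϖ ^ β ∣ w'.2) ∧ w.1 * w'.2 = w'.1 * w.2

theorem IsChain.card_sol_le (h : IsChain R ϖ q k) {α β : ℕ} (hβ : β ≤ k) {w : R × R}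
    (hw : HasVal ϖ k w α) :
    Nat.card {w' : R × R // Sol ϖ β w w'} ≤ q ^ ((k - β) + min α (k - β)) := by
  have := h.finite
  obtain ⟨hα, c, d, rfl, hcd⟩ := hw
  rw [pow_add]
  calc _ ≤ Nat.card ({x : R // ϖ ^ β ∣ x} × {z : R // ϖ ^ β ∣ z ∧ ϖ ^ α * z = 0}) := by
        rcases hcd with hc | hd
        · refine Nat.card_le_card_of_injective
            (fun w' => (⟨w'.1.1, w'.2.1.1⟩, ⟨c * w'.1.2 - w'.1.1 * d, ?_, ?_⟩)) ?_
          · exact dvd_sub (Dvd.dvd.mul_left w'.2.1.2 _) (Dvd.dvd.mul_right w'.2.1.1 _)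
          · have := w'.2.2
            simp only at this
            linear_combination this
          · rintro ⟨⟨x, y⟩, h1⟩ ⟨⟨x', y'⟩, h2⟩ h3
            simp only [Prod.mk.injEq, Subtype.mk.injEq] at h3
            obtain ⟨rfl, h4⟩ := h3
            have h5 : c * y = c * y' := by linear_combination h4
            have h6 := hc.mul_left_cancel h5
            subst h6
            rfl
        · refine Nat.card_le_card_of_injective
            (fun w' => (⟨w'.1.2, w'.2.1.2⟩, ⟨c * w'.1.2 - w'.1.1 * d, ?_, ?_⟩)) ?_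
          · exact dvd_sub (Dvd.dvd.mul_left w'.2.1.2 _) (Dvd.dvd.mul_right w'.2.1.1 _)
          · have := w'.2.2
            simp only at this
            linear_combination this
          · rintro ⟨⟨x, y⟩, h1⟩ ⟨⟨x', y'⟩, h2⟩ h3
            simp only [Prod.mk.injEq, Subtype.mk.injEq] at h3
            obtain ⟨rfl, h4⟩ := h3
            have h5 : x * d = x' * d := by linear_combination -h4
            have h6 := hd.mul_right_cancel h5
            subst h6
            rfl
    _ = Nat.card {x : R // ϖ ^ β ∣ x} * Nat.card {z : R // ϖ ^ β ∣ z ∧ ϖ ^ α * z = 0} :=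
        Nat.card_prod _ _
    _ ≤ q ^ (k - β) * q ^ (min α (k - β)) := by
        rw [h.card β hβ]
        exact Nat.mul_le_mul_left _ (h.card_ann_le hα hβ)

theorem IsChain.card_mult (h : IsChain R ϖ q k) {β : ℕ} (hβ : β ≤ k) :
    Nat.card {w' : R × R // ϖ ^ β ∣ w'.1 ∧ ϖ ^ β ∣ w'.2} = q ^ (2 * (k - β)) := by
  rw [Nat.card_congr (Equiv.subtypeProdEquivProd (p := fun x => ϖ ^ β ∣ x)
    (q := fun x => ϖ ^ β ∣ x)), Nat.card_prod, h.card β hβ, two_mul, pow_add]

end

/-- A list of vertices with parents: the parent of each vertex comes later in the list. -/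
def Valid {V : Type*} : List (V × Option V) → Prop
  | [] => True
  | (_, p) :: l => (∀ u ∈ p, u ∈ l.map Prod.fst) ∧ Valid l

/-- The exponent of the number of choices for a vertex of given valuation when its parent is
known. -/
def ex {V : Type*} (k : ℕ) (a : V → ℕ) : V × Option V → ℕ
  | (v, none) => 2 * (k - a v)
  | (v, some u) => (k - a v) + min (a u) (k - a v)

section

variable {V : Type*} [DecidableEq V] [Fintype V] {R : Type*} [CommRing R] {ϖ : R} {q k : ℕ}

open Classical in
theorem IsChain.forest_bound_aux (h : IsChain R ϖ q k) [Fintype R] (a : V → ℕ)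
    (ha : ∀ v, a v ≤ k) (S : Finset (V → R × R))
    (hS1 : ∀ w ∈ S, ∀ v, HasVal ϖ k (w v) (a v)) :
    ∀ l : List (V × Option V), Valid l →
    (∀ w ∈ S, ∀ v u, (v, some u) ∈ l → (w u).1 * (w v).2 = (w v).1 * (w u).2) →
    #(S.image (fun w u => if u ∈ l.map Prod.fst then w u else 0)) ≤ q ^ ((l.map (ex k a)).sum)
  | [], _, _ => by
    have : (S.image (fun w u => if u ∈ ([] : List (V × Option V)).map Prod.fst then w u else 0)) ⊆
        {(0 : V → R × R)} := by
      intro x hx
      rw [Finset.mem_image] at hx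
      obtain ⟨w, _, rfl⟩ := hx
      simp only [List.map_nil, List.not_mem_nil, if_false, mem_singleton]
      rfl
    simpa using Finset.card_le_card this
  | (v, p) :: l, hl, hd => by
    have ih := IsChain.forest_bound_aux h a ha S hS1 l hl.2 (fun w hw v' u' hv' =>
      hd w hw v' u' (List.mem_cons_of_mem _ hv'))
    set T := S.image (fun w u => if u ∈ ((v, p) :: l).map Prod.fst then w u else 0) with hT
    let r : (V → R × R) → (V → R × R) := fun w u => if u ∈ l.map Prod.fst then w u else 0
    have hTr : T.image r = S.image r := by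
      ext x
      simp only [hT, Finset.mem_image, r]
      constructor
      · rintro ⟨y, ⟨w, hw, rfl⟩, rfl⟩
        refine ⟨w, hw, ?_⟩
        funext u
        simp only [List.map_cons, List.mem_cons]
        by_cases hu : u ∈ l.map Prod.fst
        · rw [if_pos hu, if_pos hu, if_pos (Or.inr hu)]
        · rw [if_neg hu, if_neg hu]
      · rintro ⟨w, hw, rfl⟩
        refine ⟨_, ⟨w, hw, rfl⟩, ?_⟩
        funext u
        simp only [List.map_cons, List.mem_cons]
        by_cases hu : u ∈ l.map Prod.fst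
        · rw [if_pos hu, if_pos hu, if_pos (Or.inr hu)]
        · rw [if_neg hu, if_neg hu]
    have hfib : ∀ b ∈ T.image r, #{x ∈ T | r x = b} ≤ q ^ (ex k a (v, p)) := by
      intro b hb
      rw [hTr, Finset.mem_image] at hb
      obtain ⟨w₀, hw₀, rfl⟩ := hb
      have hval : Set.InjOn (fun x : V → R × R => x v) ({x ∈ T | r x = r w₀} : Finset _) := by
        intro x hx y hy hxy
        simp only [coe_filter, Set.mem_ofPred_eq, hT, Finset.mem_image] at hx hy
        obtain ⟨⟨w, hw, rfl⟩, hx2⟩ := hx
        obtain ⟨⟨w', hw', rfl⟩, hy2⟩ := hy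
        funext u
        simp only [List.map_cons, List.mem_cons]
        by_cases hu : u ∈ l.map Prod.fst
        · have h1 := congrFun hx2 u
          have h2 := congrFun hy2 u
          simp only [r, if_pos hu, List.map_cons, List.mem_cons, hu, or_true, if_true] at h1 h2
          rw [if_pos (Or.inr hu), if_pos (Or.inr hu), h1, h2]
        · by_cases huv : u = v
          · subst huv
            simpa using hxy
          · rw [if_neg (by tauto), if_neg (by tauto)]
      have hsub : ({x ∈ T | r x = r w₀}).image (fun x : V → R × R => x v) ⊆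
          ({w' : R × R | (ϖ ^ (a v) ∣ w'.1 ∧ ϖ ^ (a v) ∣ w'.2) ∧
            ∀ u ∈ p, (w₀ u).1 * w'.2 = w'.1 * (w₀ u).2} : Finset (R × R)) := by
        intro z hz
        rw [Finset.mem_image] at hz
        obtain ⟨x, hx, rfl⟩ := hz
        rw [Finset.mem_filter] at hx
        obtain ⟨hx1, hx2⟩ := hx
        rw [hT, Finset.mem_image] at hx1
        obtain ⟨w, hw, rfl⟩ := hx1
        simp only [List.map_cons, List.mem_cons, true_or, if_true, Finset.mem_filter,
          Finset.mem_univ, true_and]
        refine ⟨?_, ?_⟩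
        · obtain ⟨_, c, d, h1, _⟩ := hS1 w hw v
          rw [h1]
          exact ⟨Dvd.intro _ rfl, Dvd.intro _ rfl⟩
        · intro u hu
          have hul : u ∈ l.map Prod.fst := hl.1 u hu
          have h1 := congrFun hx2 u
          simp only [r, if_pos hul, List.map_cons, List.mem_cons, hul, or_true, if_true] at h1
          rw [← h1]
          refine hd w hw v u ?_
          have : p = some u := by simpa using hu
          rw [this]
          exact List.mem_cons_self
      rw [← Finset.card_image_of_injOn hval]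
      refine (Finset.card_le_card hsub).trans ?_
      cases p with
      | none =>
        have := h.card_mult (ha v)
        rw [Nat.card_eq_fintype_card, Fintype.card_subtype] at this
        simp only [Option.mem_def, reduceCtorEq, false_implies, implies_true, and_true]
        simp only [ex]
        exact this.le
      | some u =>
        have := h.card_sol_le (ha v) (hS1 w₀ hw₀ u)
        rw [Nat.card_eq_fintype_card, Fintype.card_subtype] at this
        simp only [Option.mem_def, Option.some.injEq, forall_eq']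
        simp only [ex]
        unfold Sol at this
        convert this
        rfl
    calc #T ≤ q ^ (ex k a (v, p)) * #(T.image r) := Finset.card_le_mul_card_image _ _ hfib
      _ ≤ q ^ (ex k a (v, p)) * q ^ ((l.map (ex k a)).sum) := by
          rw [hTr]
          exact Nat.mul_le_mul_left _ ih
      _ = _ := by rw [List.map_cons, List.sum_cons, pow_add]

open Classical in
/-- The number of families with given valuations and with zero determinants along a forest. -/
theorem IsChain.forest_bound (h : IsChain R ϖ q k) [Fintype R] (a : V → ℕ)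
    (ha : ∀ v, a v ≤ k) (S : Finset (V → R × R))
    (hS1 : ∀ w ∈ S, ∀ v, HasVal ϖ k (w v) (a v))
    (l : List (V × Option V)) (hl : Valid l) (hall : ∀ v, v ∈ l.map Prod.fst)
    (hd : ∀ w ∈ S, ∀ v u, (v, some u) ∈ l → (w u).1 * (w v).2 = (w v).1 * (w u).2) :
    #S ≤ q ^ ((l.map (ex k a)).sum) := by
  have h1 := h.forest_bound_aux a ha S hS1 l hl hd
  have h2 : (S.image (fun w u => if u ∈ l.map Prod.fst then w u else 0)) = S := by
    ext x
    simp [hall]
  rwa [h2] at h1

/-- If for all valuations the number of good families is at most `M`, then the total number is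
at most `(k+1)^n M`. -/
theorem IsChain.numGood_le (h : IsChain R ϖ q k) {V : Type*} [LinearOrder V] [Fintype V]
    (Γ : SimpleGraph V) (M : ℝ)
    (hM : ∀ [Fintype R] [DecidableEq R] (a : V → ℕ), (∀ v, a v ≤ k) → ∀ S : Finset (V → R × R),
      (∀ w ∈ S, (∀ v, HasVal ϖ k (w v) (a v)) ∧ Good Γ w) → (#S : ℝ) ≤ M) :
    (numGood Γ R : ℝ) ≤ (k + 1) ^ Fintype.card V * M := by
  classical
  have := h.finite
  let _ : Fintype R := Fintype.ofFinite R
  choose val hval using h.exists_hasVal
  let f : (V → R × R) → (V → Fin (k + 1)) := fun w v => ⟨val (w v), by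
    have := (hval (w v)).1; omega⟩
  have h1 : numGood Γ R = #{w : V → R × R | Good Γ w} := by
    unfold numGood
    rw [Nat.card_eq_fintype_card, Fintype.card_subtype]
  have h2 : #{w : V → R × R | Good Γ w} =
      ∑ b : V → Fin (k + 1), #{w ∈ ({w : V → R × R | Good Γ w} : Finset _) | f w = b} :=
    Finset.card_eq_sum_card_fiberwise (fun _ _ => Finset.mem_univ _)
  rw [h1, h2]
  push_cast
  calc _ ≤ ∑ b : V → Fin (k + 1), M := by
        refine Finset.sum_le_sum (fun b _ => ?_)
        refine hM (fun v => (b v : ℕ)) (fun v => by have := (b v).2; omega) _ ?_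
        intro w hw
        simp only [Finset.mem_filter, Finset.mem_univ, true_and] at hw
        refine ⟨fun v => ?_, hw.1⟩
        have h3 := congrFun hw.2 v
        rw [← h3]
        exact hval (w v)
    _ = _ := by
        rw [Finset.sum_const, Finset.card_univ, Fintype.card_fun, Fintype.card_fin, nsmul_eq_mul]
        push_cast
        ring

end

end Q27.Graphical
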