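import Pool.Agent.Q27.Graphical.Instances

/-!
# The corona of the complete graph on four vertices: local estimates
-/

set_option autoImplicit false
set_option linter.unusedSectionVars false

open Finset

namespace Q27.Graphical

section

variable {R : Type*} [CommRing R] {ϖ : R} {q k : ℕ}

/-- The solutions of `det (w, w') = 0` for `w ∈ ϖ^α R²`. -/
theorem IsChain.le_card_det (h : IsChain R ϖ q k) {α : ℕ} (hα : α ≤ k) {w : R × R}
    (hw : ϖ ^ α ∣ w.1 ∧ ϖ ^ α ∣ w.2) :
    q ^ (k + α) ≤ Nat.card {w' : R × R // w.1 * w'.2 = w'.1 * w.2} := by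
  have := h.finite
  let f : R × R →+ R :=
    { toFun := fun w' => w.1 * w'.2 - w'.1 * w.2
      map_zero' := by simp
      map_add' := by intro x y; simp; ring }
  have h1 : Nat.card (R × R) = Nat.card ((R × R) ⧸ f.ker) * Nat.card f.ker :=
    AddSubgroup.card_eq_card_quotient_mul_card_addSubgroup _
  have h2 : Nat.card ((R × R) ⧸ f.ker) = Nat.card f.range :=
    Nat.card_congr (QuotientAddGroup.quotientKerEquivRange f).toEquiv
  have h3 : Nat.card f.range ≤ q ^ (k - α) := by
    rw [← h.card α hα]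
    refine Nat.card_le_card_of_injective (fun x => ⟨x.1, ?_⟩) (fun x y hxy => ?_)
    · obtain ⟨x, y, rfl⟩ := x
      exact dvd_sub (Dvd.dvd.mul_right hw.1 _) (Dvd.dvd.mul_left hw.2 _)
    · have h2 : x.1 = y.1 := congrArg (fun t => t.1) hxy
      exact Subtype.ext h2
  have h4 : Nat.card f.ker = Nat.card {w' : R × R // w.1 * w'.2 = w'.1 * w.2} := by
    refine Nat.card_congr (Equiv.subtypeEquivRight (fun x => ?_))
    rw [AddMonoidHom.mem_ker]
    exact sub_eq_zero
  rw [h2, h4, Nat.card_prod, h.card_univ] at h1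
  have hq : 0 < q := by have := h.two_le; omega
  have h5 : q ^ k * q ^ k ≤ q ^ (k - α) *
      Nat.card {w' : R × R // w.1 * w'.2 = w'.1 * w.2} := by
    rw [h1]
    exact Nat.mul_le_mul_right _ h3
  have h6 : q ^ k * q ^ k = q ^ (k - α) * q ^ (k + α) := by
    rw [← pow_add, ← pow_add]
    congr 1
    omega
  rw [h6] at h5
  exact Nat.le_of_mul_le_mul_left h5 (pow_pos hq _)

/-- Pairs `(v, ℓ)` with `v ∈ ϖ^α R²` and `det (v, ℓ) = 0`. -/
def Blob (R : Type*) [CommRing R] (ϖ : R) (α : ℕ) : Type _ :=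
  {p : (R × R) × (R × R) // (ϖ ^ α ∣ p.1.1 ∧ ϖ ^ α ∣ p.1.2) ∧ p.1.1 * p.2.2 = p.2.1 * p.1.2}

theorem IsChain.le_card_blob (h : IsChain R ϖ q k) {α : ℕ} (hα : α ≤ k) :
    q ^ (3 * k - α) ≤ Nat.card (Blob R ϖ α) := by
  have := h.finite
  let e : Blob R ϖ α ≃ (Σ v : {v : R × R // ϖ ^ α ∣ v.1 ∧ ϖ ^ α ∣ v.2},
      {w' : R × R // v.1.1 * w'.2 = w'.1 * v.1.2}) :=
    { toFun := fun p => ⟨⟨p.1.1, p.2.1⟩, ⟨p.1.2, p.2.2⟩⟩
      invFun := fun p => ⟨(p.1.1, p.2.1), p.1.2, p.2.2⟩
      left_inv := fun _ => rfl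
      right_inv := fun _ => rfl }
  let _ : Fintype {v : R × R // ϖ ^ α ∣ v.1 ∧ ϖ ^ α ∣ v.2} := Fintype.ofFinite _
  rw [Nat.card_congr e, Nat.card_sigma]
  calc q ^ (3 * k - α) = q ^ (2 * (k - α)) * q ^ (k + α) := by
        rw [← pow_add]; congr 1; omega
    _ = ∑ _v : {v : R × R // ϖ ^ α ∣ v.1 ∧ ϖ ^ α ∣ v.2}, q ^ (k + α) := by
        rw [Finset.sum_const, Finset.card_univ, ← Nat.card_eq_fintype_card, h.card_mult hα,
          smul_eq_mul]
    _ ≤ _ := Finset.sum_le_sum (fun v _ => h.le_card_det hα v.2)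

end

/-- The corona of `K₄`: the vertices `0, 1, 2, 3` form a clique, and the vertex `i + 4` is
adjacent to `i` only (`i = 0, 1, 2, 3`). -/
def corona : SimpleGraph (Fin 8) where
  Adj u v := u ≠ v ∧ ((u.val < 4 ∧ v.val < 4) ∨ u.val + 4 = v.val ∨ v.val + 4 = u.val)
  symm := ⟨fun u v h => ⟨h.1.symm, by
    rcases h.2 with h | h | h
    · exact Or.inl ⟨h.2, h.1⟩
    · exact Or.inr (Or.inr h)
    · exact Or.inr (Or.inl h)⟩⟩
  loopless := ⟨fun u h => h.1 rfl⟩

instance : DecidableRel corona.Adj := fun u v => by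
  unfold corona
  infer_instance

theorem card_corona : Nat.card corona.edgeSet = 10 := by
  rw [Nat.card_eq_fintype_card, ← SimpleGraph.edgeFinset_card]
  decide +kernel

/-- The star-like spanning tree with centre `i`. -/
def tree (i : Fin 4) : List (Fin 8 × Option (Fin 8)) :=
  match i with
  | 0 => [(7, some 3), (6, some 2), (5, some 1), (4, some 0), (3, some 0), (2, some 0),
      (1, some 0), (0, none)]
  | 1 => [(7, some 3), (6, some 2), (5, some 1), (4, some 0), (3, some 1), (2, some 1),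
      (0, some 1), (1, none)]
  | 2 => [(7, some 3), (6, some 2), (5, some 1), (4, some 0), (3, some 2), (1, some 2),
      (0, some 2), (2, none)]
  | 3 => [(7, some 3), (6, some 2), (5, some 1), (4, some 0), (2, some 3), (1, some 3),
      (0, some 3), (3, none)]

theorem tree_valid (i : Fin 4) : Valid (tree i) := by
  fin_cases i <;> simp [tree, Valid]

theorem tree_all (i : Fin 4) (v : Fin 8) : v ∈ (tree i).map Prod.fst := by
  revert i v
  decide

theorem tree_adj (i : Fin 4) (v u : Fin 8) (h : (v, some u) ∈ tree i) : corona.Adj u v := by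
  revert i v u
  decide

/-- The exponent. -/
def coronaExp (k : ℕ) : ℕ := if k = 1 then 9 else 10 * k

theorem ex_some_le {V : Type*} (k : ℕ) (a : V → ℕ) (v u : V) :
    ex k a (v, some u) ≤ (k - a v) + a u := by
  simp only [ex]
  omega

theorem exists_tree (k : ℕ) (a : Fin 8 → ℕ) (ha : ∀ v, a v ≤ k) :
    ∃ i, ((tree i).map (ex k a)).sum ≤ coronaExp k := by
  have h0 := ha 0
  have h1 := ha 1
  have h2 := ha 2
  have h3 := ha 3
  have h4 := ha 4
  have h5 := ha 5
  have h6 := ha 6
  have h7 := ha 7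
  have l4 := ex_some_le k a 4 0
  have l5 := ex_some_le k a 5 1
  have l6 := ex_some_le k a 6 2
  have l7 := ex_some_le k a 7 3
  have key : ∀ x y z w : ℕ, x ≤ k → y ≤ k → z ≤ k → w ≤ k → x ≤ y → x ≤ z → x ≤ w →
      (k + w) + ((k + z) + ((k + y) + ((k + x) + ((k - y + min x (k - y)) +
        ((k - z + min x (k - z)) + ((k - w + min x (k - w)) + 2 * (k - x))))))) ≤
        coronaExp k := by
    intro x y z w _ _ _ _ _ _ _
    unfold coronaExp
    split_ifs <;> omega
  obtain ⟨i, hi⟩ := Finite.exists_min (fun i : Fin 4 => a (Fin.castLE (by norm_num) i))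
  have i0 := hi 0
  have i1 := hi 1
  have i2 := hi 2
  have i3 := hi 3
  refine ⟨i, ?_⟩
  fin_cases i
  · change a 0 ≤ a 0 at i0
    change a 0 ≤ a 1 at i1
    change a 0 ≤ a 2 at i2
    change a 0 ≤ a 3 at i3
    have := key (a 0) (a 1) (a 2) (a 3) h0 h1 h2 h3 i1 i2 i3
    simp only [tree, List.map_cons, List.map_nil, List.sum_cons, List.sum_nil]
    have e1 : ex k a (1, some 0) = k - a 1 + min (a 0) (k - a 1) := rfl
    have e2 : ex k a (2, some 0) = k - a 2 + min (a 0) (k - a 2) := rfl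
    have e3 : ex k a (3, some 0) = k - a 3 + min (a 0) (k - a 3) := rfl
    have e4 : ex k a (0, none) = 2 * (k - a 0) := rfl
    rw [e1, e2, e3, e4]
    generalize coronaExp k = E at *
    generalize min (a 0) (k - a 1) = m1 at *
    generalize min (a 0) (k - a 2) = m2 at *
    generalize min (a 0) (k - a 3) = m3 at *
    omega
  · change a 1 ≤ a 0 at i0
    change a 1 ≤ a 1 at i1
    change a 1 ≤ a 2 at i2
    change a 1 ≤ a 3 at i3
    have := key (a 1) (a 0) (a 2) (a 3) h1 h0 h2 h3 i0 i2 i3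
    simp only [tree, List.map_cons, List.map_nil, List.sum_cons, List.sum_nil]
    have e1 : ex k a (0, some 1) = k - a 0 + min (a 1) (k - a 0) := rfl
    have e2 : ex k a (2, some 1) = k - a 2 + min (a 1) (k - a 2) := rfl
    have e3 : ex k a (3, some 1) = k - a 3 + min (a 1) (k - a 3) := rfl
    have e4 : ex k a (1, none) = 2 * (k - a 1) := rfl
    rw [e1, e2, e3, e4]
    generalize coronaExp k = E at *
    generalize min (a 1) (k - a 0) = m1 at *
    generalize min (a 1) (k - a 2) = m2 at *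
    generalize min (a 1) (k - a 3) = m3 at *
    omega
  · change a 2 ≤ a 0 at i0
    change a 2 ≤ a 1 at i1
    change a 2 ≤ a 2 at i2
    change a 2 ≤ a 3 at i3
    have := key (a 2) (a 0) (a 1) (a 3) h2 h0 h1 h3 i0 i1 i3
    simp only [tree, List.map_cons, List.map_nil, List.sum_cons, List.sum_nil]
    have e1 : ex k a (0, some 2) = k - a 0 + min (a 2) (k - a 0) := rfl
    have e2 : ex k a (1, some 2) = k - a 1 + min (a 2) (k - a 1) := rfl
    have e3 : ex k a (3, some 2) = k - a 3 + min (a 2) (k - a 3) := rfl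
    have e4 : ex k a (2, none) = 2 * (k - a 2) := rfl
    rw [e1, e2, e3, e4]
    generalize coronaExp k = E at *
    generalize min (a 2) (k - a 0) = m1 at *
    generalize min (a 2) (k - a 1) = m2 at *
    generalize min (a 2) (k - a 3) = m3 at *
    omega
  · change a 3 ≤ a 0 at i0
    change a 3 ≤ a 1 at i1
    change a 3 ≤ a 2 at i2
    change a 3 ≤ a 3 at i3
    have := key (a 3) (a 0) (a 1) (a 2) h3 h0 h1 h2 i0 i1 i2
    simp only [tree, List.map_cons, List.map_nil, List.sum_cons, List.sum_nil]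
    have e1 : ex k a (0, some 3) = k - a 0 + min (a 3) (k - a 0) := rfl
    have e2 : ex k a (1, some 3) = k - a 1 + min (a 3) (k - a 1) := rfl
    have e3 : ex k a (2, some 3) = k - a 2 + min (a 3) (k - a 2) := rfl
    have e4 : ex k a (3, none) = 2 * (k - a 3) := rfl
    rw [e1, e2, e3, e4]
    generalize coronaExp k = E at *
    generalize min (a 3) (k - a 0) = m1 at *
    generalize min (a 3) (k - a 1) = m2 at *
    generalize min (a 3) (k - a 2) = m3 at *
    omega

theorem IsChain.numGood_corona_le {R : Type*} [CommRing R] {ϖ : R} {q k : ℕ}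
    (h : IsChain R ϖ q k) :
    (numGood corona R : ℝ) ≤ (k + 1) ^ 8 * q ^ coronaExp k := by
  have h1 := h.numGood_le corona ((q : ℝ) ^ coronaExp k) ?_
  · simpa using h1
  · intro _ _ a ha S hS
    obtain ⟨i, hi⟩ := exists_tree k a ha
    have h2 := h.forest_bound a ha S (fun w hw => (hS w hw).1) (tree i) (tree_valid i)
      (tree_all i) (fun w hw v u hvu => (hS w hw).2 u v (tree_adj i v u hvu))
    have hq : 1 ≤ q := by have := h.two_le; omega
    have h3 : #S ≤ q ^ coronaExp k := h2.trans (Nat.pow_le_pow_right hq hi)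
    exact_mod_cast h3

theorem IsChain.le_numGood_corona {R : Type*} [CommRing R] {ϖ : R} {q : ℕ}
    (h : IsChain R ϖ q 2) : q ^ 20 ≤ numGood corona R := by
  have := h.finite
  have h1 := h.le_card_blob (α := 1) (by norm_num)
  have h2 : Nat.card (Fin 4 → Blob R ϖ 1) ≤ numGood corona R := by
    unfold numGood
    have h0 : ϖ ^ 2 = 0 := h.pow_eq_zero
    let F : (Fin 4 → Blob R ϖ 1) → (Fin 8 → R × R) := fun f v =>
      if hv : v.val < 4 then (f ⟨v.val, hv⟩).1.1 else (f ⟨v.val - 4, by omega⟩).1.2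
    have hF : ∀ f, Good corona (F f) := by
      intro f u v huv
      obtain ⟨hne, hh⟩ := huv
      rcases hh with ⟨hu, hv⟩ | huv | huv
      · simp only [F, dif_pos hu, dif_pos hv]
        obtain ⟨⟨⟨c1, h1⟩, ⟨c2, h2⟩⟩, _⟩ := (f ⟨u.val, hu⟩).2
        obtain ⟨⟨⟨d1, h3⟩, ⟨d2, h4⟩⟩, _⟩ := (f ⟨v.val, hv⟩).2
        rw [h1, h2, h3, h4, pow_one]
        linear_combination (c1 * d2 - d1 * c2) * h0
      · have hu : u.val < 4 := by omega
        have hv : ¬ v.val < 4 := by omega
        simp only [F, dif_pos hu, dif_neg hv]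
        have h5 : (⟨v.val - 4, by omega⟩ : Fin 4) = ⟨u.val, hu⟩ := by
          ext; simp only; omega
        rw [h5]
        exact (f ⟨u.val, hu⟩).2.2
      · have hv : v.val < 4 := by omega
        have hu : ¬ u.val < 4 := by omega
        simp only [F, dif_pos hv, dif_neg hu]
        have h5 : (⟨u.val - 4, by omega⟩ : Fin 4) = ⟨v.val, hv⟩ := by
          ext; simp only; omega
        rw [h5]
        have := (f ⟨v.val, hv⟩).2.2
        linear_combination -this
    refine Nat.card_le_card_of_injective (fun f => ⟨F f, hF f⟩) ?_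
    intro f g hfg
    have hfg' : F f = F g := congrArg (fun t => t.1) hfg
    funext i
    apply Subtype.ext
    apply Prod.ext
    · have := congrFun hfg' ⟨i.val, by omega⟩
      simp only [F] at this
      rw [dif_pos i.2, dif_pos i.2] at this
      exact this
    · have := congrFun hfg' ⟨i.val + 4, by omega⟩
      simp only [F] at this
      rw [dif_neg (by omega), dif_neg (by omega)] at this
      simpa using this
  refine le_trans ?_ h2
  rw [Nat.card_fun]
  simp only [Nat.card_eq_fintype_card, Fintype.card_fin]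
  calc q ^ 20 = (q ^ (3 * 2 - 1)) ^ 4 := by rw [← pow_mul]
    _ ≤ _ := Nat.pow_le_pow_left h1 4

end Q27.Graphical
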