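import Pool.Agent.Q27.Graphical.Corona

/-!
# The Dirichlet series of the corona of `K₄`
-/

set_option autoImplicit false
set_option linter.unusedSectionVars false

open Finset

namespace Q27.Graphical

/-- The number of conjugacy classes over `ZMod n`. -/
noncomputable def cc (n : ℕ) : ℕ := classNumber (GG corona (ZMod n))

theorem cc_mul {m n : ℕ} (hm : m ≠ 0) (hn : n ≠ 0) (h : m.Coprime n) :
    cc (m * n) = cc m * cc n := by
  have : NeZero m := ⟨hm⟩
  have : NeZero n := ⟨hn⟩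
  have : NeZero (m * n) := ⟨mul_ne_zero hm hn⟩
  unfold cc
  rw [classNumber_congr corona (ZMod.chineseRemainder h), classNumber_prod]

theorem cc_pos {n : ℕ} (hn : n ≠ 0) : 0 < cc n := by
  have : NeZero n := ⟨hn⟩
  have h := classNumber_mul (Γ := corona) (R := ZMod n)
  have h1 : 0 < numGood corona (ZMod n) := numGood_pos
  have h2 : 0 < Nat.card (ZMod n) := Nat.card_pos
  unfold cc
  by_contra h3
  have h4 : classNumber (GG corona (ZMod n)) = 0 := by omega
  rw [h4, zero_mul] at h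
  have : 0 < numGood corona (ZMod n) * Nat.card (ZMod n) ^ Nat.card corona.edgeSet := by positivity
  omega

theorem cc_one : cc 1 = 1 := by
  have h := cc_mul (m := 1) (n := 1) one_ne_zero one_ne_zero (by norm_num)
  have h1 := cc_pos (n := 1) one_ne_zero
  rw [mul_one] at h
  exact Nat.eq_of_mul_eq_mul_left h1 (by rw [← h, mul_one])

theorem cc_prime_pow (p k : ℕ) [hp : Fact p.Prime] :
    cc (p ^ k) = numGood corona (ZMod (p ^ k)) * (p ^ k) ^ 2 := by
  have hpos : 0 < p ^ k := pow_pos hp.out.pos k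
  have : NeZero (p ^ k) := ⟨hpos.ne'⟩
  have h := classNumber_mul (Γ := corona) (R := ZMod (p ^ k))
  rw [card_corona, Nat.card_zmod, Fintype.card_fin] at h
  unfold cc
  apply Nat.eq_of_mul_eq_mul_right (show 0 < (p ^ k) ^ 8 by positivity)
  rw [h, mul_assoc, ← pow_add]

theorem cc_prime_pow_le (p k : ℕ) [hp : Fact p.Prime] :
    (cc (p ^ k) : ℝ) ≤ (k + 1) ^ 8 * (p : ℝ) ^ (coronaExp k + 2 * k) := by
  rw [cc_prime_pow]
  have h := (isChain_zmod p k).numGood_corona_le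
  push_cast
  calc _ ≤ ((k + 1) ^ 8 * (p : ℝ) ^ coronaExp k) * ((p : ℝ) ^ k) ^ 2 := by gcongr
    _ = _ := by rw [pow_add, ← pow_mul, mul_comm 2 k]; ring

theorem cc_prime_sq_ge (p : ℕ) [hp : Fact p.Prime] : p ^ 24 ≤ cc (p ^ 2) := by
  rw [cc_prime_pow]
  have h := (isChain_zmod p 2).le_numGood_corona
  calc p ^ 24 = p ^ 20 * (p ^ 2) ^ 2 := by rw [← pow_mul, ← pow_add]
    _ ≤ _ := Nat.mul_le_mul_right _ h

/-- The terms of the series. -/
noncomputable def f (σ : ℝ) (n : ℕ) : ℝ := if n = 0 then 0 else (cc n : ℝ) * (n : ℝ) ^ (-σ)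

theorem f_nonneg (σ : ℝ) (n : ℕ) : 0 ≤ f σ n := by
  unfold f
  split_ifs
  · exact le_rfl
  · positivity

theorem f_one (σ : ℝ) : f σ 1 = 1 := by
  simp [f, cc_one]

theorem f_mul (σ : ℝ) {m n : ℕ} (h : m.Coprime n) : f σ (m * n) = f σ m * f σ n := by
  unfold f
  by_cases hm : m = 0
  · simp [hm]
  by_cases hn : n = 0
  · simp [hn]
  rw [if_neg hm, if_neg hn, if_neg (mul_ne_zero hm hn), cc_mul hm hn h]
  push_cast
  rw [Real.mul_rpow (by positivity) (by positivity)]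
  ring

/-- The constants. -/
noncomputable def cst (k : ℕ) : ℝ := (k + 1) ^ 8 * (1 / Real.sqrt 2) ^ (k - 3)

theorem summable_cst : Summable cst := by
  have h1 : (1 / Real.sqrt 2) < 1 := by
    rw [div_lt_one (by positivity)]
    exact Real.lt_sqrt_of_sq_lt (by norm_num)
  have h0 : 0 < 1 / Real.sqrt 2 := by positivity
  rw [← summable_nat_add_iff 3]
  have h2 : Summable (fun k : ℕ => ((k + 4 : ℕ) : ℝ) ^ 8 * (1 / Real.sqrt 2) ^ (k + 4)) := by
    have := summable_pow_mul_geometric_of_norm_lt_one (R := ℝ) 8 (r := 1 / Real.sqrt 2)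
      (by rw [Real.norm_of_nonneg h0.le]; exact h1)
    exact (summable_nat_add_iff 4).2 this
  have h3 := h2.mul_left ((1 / Real.sqrt 2) ^ 4)⁻¹
  refine h3.congr (fun k => ?_)
  unfold cst
  have : k + 3 - 3 = k := by omega
  rw [this, pow_add]
  push_cast
  field_simp
  ring

theorem f_prime_pow_le {ε : ℝ} (hε : 0 < ε) (hε' : ε ≤ 1 / 4) (p : ℕ) (hp : p.Prime) (k : ℕ)
    (hk : 1 ≤ k) : f (25 / 2 + ε) (p ^ k) ≤ cst k * (p : ℝ) ^ (-(1 + 2 * ε)) := by
  have : Fact p.Prime := ⟨hp⟩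
  have hp0 : (0 : ℝ) < p := by exact_mod_cast hp.pos
  have hp1 : (1 : ℝ) ≤ p := by exact_mod_cast hp.one_lt.le
  have hp2 : (2 : ℝ) ≤ p := by exact_mod_cast hp.two_le
  unfold f
  rw [if_neg (pow_ne_zero _ hp.ne_zero)]
  push_cast
  have h1 := cc_prime_pow_le p k
  have h2 : ((p : ℝ) ^ k) ^ (-(25 / 2 + ε)) = (p : ℝ) ^ (-(25 / 2 + ε) * k) := by
    rw [← Real.rpow_natCast, ← Real.rpow_mul hp0.le]
    ring_nf
  rw [h2]
  unfold cst
  have h3 : (p : ℝ) ^ (coronaExp k + 2 * k) * (p : ℝ) ^ (-(25 / 2 + ε) * k) ≤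
      (1 / Real.sqrt 2) ^ (k - 3) * (p : ℝ) ^ (-(1 + 2 * ε)) := by
    rw [← Real.rpow_natCast, ← Real.rpow_add hp0]
    rcases Nat.lt_or_ge k 3 with hk3 | hk3
    · have hk0 : k - 3 = 0 := by omega
      rw [hk0, pow_zero, one_mul]
      apply Real.rpow_le_rpow_of_exponent_le hp1
      interval_cases k
      · simp only [coronaExp]
        norm_num
        linarith
      · simp only [coronaExp]
        norm_num
        linarith
    · obtain ⟨j, rfl⟩ := Nat.exists_eq_add_of_le hk3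
      have hj : 3 + j - 3 = j := by omega
      rw [hj]
      have h4 : coronaExp (3 + j) = 10 * (3 + j) := by
        unfold coronaExp
        rw [if_neg (by omega)]
      rw [h4]
      have h5 : (p : ℝ) ^ (((10 * (3 + j) + 2 * (3 + j) : ℕ) : ℝ) + -(25 / 2 + ε) * ((3 + j : ℕ) : ℝ)) ≤
          (p : ℝ) ^ (-(1 / 2 : ℝ) * j + (-(1 + 2 * ε))) := by
        apply Real.rpow_le_rpow_of_exponent_le hp1
        push_cast
        have : 0 ≤ ε * (j : ℝ) := by positivity
        nlinarith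
      refine h5.trans ?_
      rw [Real.rpow_add hp0]
      apply mul_le_mul_of_nonneg_right _ (by positivity)
      rw [Real.rpow_mul hp0.le, Real.rpow_natCast]
      apply pow_le_pow_left₀ (by positivity)
      rw [Real.rpow_neg hp0.le, ← Real.sqrt_eq_rpow, one_div]
      apply inv_anti₀ (by positivity)
      exact Real.sqrt_le_sqrt hp2
  calc (cc (p ^ k) : ℝ) * (p : ℝ) ^ (-(25 / 2 + ε) * k)
      ≤ ((k + 1) ^ 8 * (p : ℝ) ^ (coronaExp k + 2 * k)) * (p : ℝ) ^ (-(25 / 2 + ε) * k) := by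
        apply mul_le_mul_of_nonneg_right h1 (by positivity)
    _ = (k + 1) ^ 8 * ((p : ℝ) ^ (coronaExp k + 2 * k) * (p : ℝ) ^ (-(25 / 2 + ε) * k)) := by ring
    _ ≤ (k + 1) ^ 8 * ((1 / Real.sqrt 2) ^ (k - 3) * (p : ℝ) ^ (-(1 + 2 * ε))) := by
        apply mul_le_mul_of_nonneg_left h3 (by positivity)
    _ = _ := by ring

theorem tsum_le_exp (g c : ℕ → ℝ) (hg0 : g 0 = 1) (hg : Summable g) (hc : Summable c)
    (hcn : ∀ k, 0 ≤ c k) {y : ℝ} (hy : 0 ≤ y) (h : ∀ k, 1 ≤ k → g k ≤ c k * y) :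
    ∑' k, g k ≤ Real.exp ((∑' k, c k) * y) := by
  rw [hg.tsum_eq_zero_add, hg0]
  have h1 : Summable (fun k : ℕ => c (k + 1)) := (summable_nat_add_iff 1).2 hc
  have h0 : Summable (fun k : ℕ => g (k + 1)) := (summable_nat_add_iff 1).2 hg
  have h2 : ∑' k, g (k + 1) ≤ ∑' k, c (k + 1) * y :=
    Summable.tsum_le_tsum (fun k => h (k + 1) (by omega)) h0 (h1.mul_right _)
  have h3 : ∑' k, c (k + 1) ≤ ∑' k, c k := by
    rw [hc.tsum_eq_zero_add]
    linarith [hcn 0]
  rw [tsum_mul_right] at h2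
  have h4 : (∑' k, c (k + 1)) * y ≤ (∑' k, c k) * y := mul_le_mul_of_nonneg_right h3 hy
  have h5 := Real.add_one_le_exp ((∑' k, c k) * y)
  linarith

theorem summable_f {ε : ℝ} (hε : 0 < ε) (hε' : ε ≤ 1 / 4) : Summable (f (25 / 2 + ε)) := by
  set σ : ℝ := 25 / 2 + ε with hσ
  have hcn : ∀ k, 0 ≤ cst k := fun k => by unfold cst; positivity
  have hC0 : 0 ≤ ∑' k, cst k := tsum_nonneg hcn
  have hT : Summable (fun n : ℕ => (n : ℝ) ^ (-(1 + 2 * ε))) :=
    Real.summable_nat_rpow.2 (by linarith)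
  have hpk : ∀ {p : ℕ}, p.Prime → Summable (fun k : ℕ => ‖f σ (p ^ k)‖) := by
    intro p hp
    rw [← summable_nat_add_iff 1]
    have h1 : Summable (fun k : ℕ => cst (k + 1) * (p : ℝ) ^ (-(1 + 2 * ε))) :=
      ((summable_nat_add_iff 1).2 summable_cst).mul_right _
    refine Summable.of_nonneg_of_le (fun _ => norm_nonneg _) (fun k => ?_) h1
    rw [Real.norm_of_nonneg (f_nonneg _ _)]
    exact f_prime_pow_le hε hε' p hp (k + 1) (by omega)
  have hloc : ∀ {p : ℕ}, p.Prime →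
      ∑' k, f σ (p ^ k) ≤ Real.exp ((∑' k, cst k) * (p : ℝ) ^ (-(1 + 2 * ε))) := by
    intro p hp
    have hs : Summable (fun k : ℕ => f σ (p ^ k)) := (hpk hp).of_norm
    exact tsum_le_exp (fun k => f σ (p ^ k)) cst (by simp only [pow_zero, f_one]) hs summable_cst
      hcn (y := (p : ℝ) ^ (-(1 + 2 * ε))) (by positivity)
      (fun k hk => f_prime_pow_le hε hε' p hp k hk)
  refine summable_of_sum_le (c := Real.exp ((∑' k, cst k) * ∑' n : ℕ, (n : ℝ) ^ (-(1 + 2 * ε))))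
    (f_nonneg σ) (fun F => ?_)
  obtain ⟨N, hN⟩ := F.exists_nat_subset_range
  have h1 := (EulerProduct.summable_and_hasSum_smoothNumbers_prod_primesBelow_tsum (f_one σ)
    (fun h => f_mul σ h) hpk N).2
  have h2 : HasSum (Set.indicator (N.smoothNumbers) (f σ))
      (∏ p ∈ N.primesBelow, ∑' k : ℕ, f σ (p ^ k)) := by
    exact hasSum_subtype_iff_indicator.1 h1
  have h3 : ∑ n ∈ F, f σ n ≤ ∑ n ∈ F, Set.indicator (N.smoothNumbers) (f σ) n := by
    refine Finset.sum_le_sum (fun n hn => ?_)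
    by_cases h0 : n = 0
    · subst h0
      simp [f, Set.indicator]
    · have h4 : n < N := Finset.mem_range.1 (hN hn)
      rw [Set.indicator_of_mem]
      exact Nat.mem_smoothNumbers_of_lt (Nat.pos_of_ne_zero h0) h4
  have h4 : ∑ n ∈ F, Set.indicator (N.smoothNumbers) (f σ) n ≤
      ∏ p ∈ N.primesBelow, ∑' k : ℕ, f σ (p ^ k) := by
    apply sum_le_hasSum F _ h2
    intro n _
    exact Set.indicator_nonneg (fun n _ => f_nonneg σ n) n
  refine (h3.trans h4).trans ?_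
  calc ∏ p ∈ N.primesBelow, ∑' k : ℕ, f σ (p ^ k)
      ≤ ∏ p ∈ N.primesBelow, Real.exp ((∑' k, cst k) * (p : ℝ) ^ (-(1 + 2 * ε))) := by
        refine Finset.prod_le_prod (fun p _ => tsum_nonneg (fun k => f_nonneg σ _)) (fun p hp => ?_)
        exact hloc (Nat.prime_of_mem_primesBelow hp)
    _ = Real.exp ((∑' k, cst k) * ∑ p ∈ N.primesBelow, (p : ℝ) ^ (-(1 + 2 * ε))) := by
        rw [← Real.exp_sum, Finset.mul_sum]
    _ ≤ _ := by
        apply Real.exp_le_exp.2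
        apply mul_le_mul_of_nonneg_left _ hC0
        exact hT.sum_le_tsum _ (fun n _ => by positivity)

theorem not_summable_f : ¬ Summable (f (25 / 2)) := by
  intro h
  have h1 : Summable (fun p : Nat.Primes => f (25 / 2) ((p : ℕ) ^ 2)) := by
    apply h.comp_injective (i := fun p : Nat.Primes => (p : ℕ) ^ 2)
    intro p q hpq
    simp only at hpq
    have := Nat.pow_left_injective (n := 2) (by norm_num) hpq
    exact Subtype.ext this
  apply Nat.Primes.not_summable_one_div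
  refine Summable.of_nonneg_of_le (fun p => by positivity) (fun p => ?_) h1
  have : Fact (p : ℕ).Prime := ⟨p.2⟩
  have hp0 : (0 : ℝ) < (p : ℕ) := by exact_mod_cast p.2.pos
  unfold f
  rw [if_neg (pow_ne_zero _ p.2.ne_zero)]
  have h2 := cc_prime_sq_ge (p : ℕ)
  have h3 : (((p : ℕ) : ℝ)) ^ 24 ≤ (cc ((p : ℕ) ^ 2) : ℝ) := by exact_mod_cast h2
  have h4 : ((((p : ℕ) ^ 2 : ℕ) : ℝ)) ^ (-(25 / 2 : ℝ)) = (((p : ℕ) : ℝ) ^ 25)⁻¹ := by
    push_cast
    rw [← Real.rpow_natCast, ← Real.rpow_mul hp0.le, ← Real.rpow_natCast, ← Real.rpow_neg hp0.le]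
    norm_num
  rw [h4]
  calc (1 : ℝ) / (p : ℕ) = ((p : ℕ) : ℝ) ^ 24 * (((p : ℕ) : ℝ) ^ 25)⁻¹ := by
        field_simp
    _ ≤ _ := by gcongr

end Q27.Graphical
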