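import Mathlib

/-!
# Graphical groups and their numbers of conjugacy classes

`GG Γ R` is the graphical group of a graph `Γ` over a ring `R`: the set `R^V × R^E` with
`(x, z) (x', z') = (x + x', z + z' + β(x, x'))`, `β(x, x')_e = x_u x'_v` for an edge `e = {u, v}`
with `u < v`. We show that its number of conjugacy classes is determined by the number of
functions `w : V → R²` such that `w u` and `w v` have determinant `0` for all edges `{u, v}`.
-/

set_option autoImplicit false
set_option linter.unusedSectionVars false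

namespace Q27.Graphical

variable {V : Type*} [LinearOrder V]

/-- The graphical group of the graph `Γ` over `R`: pairs `(x, z)` with `x ∈ R^V`, `z ∈ R^E`. -/
@[ext] structure GG (Γ : SimpleGraph V) (R : Type*) where
  x : V → R
  z : Γ.edgeSet → R

/-- The number of conjugacy classes of a group. -/
noncomputable def classNumber (H : Type*) [Group H] : ℕ := Nat.card (ConjClasses H)

section

variable {Γ : SimpleGraph V} {R : Type*} [CommRing R]

/-- `(x, z) (x', z') = (x + x', z + z' + β(x, x'))` where `β(x, x')_e = x_u x'_v` for `e = {u, v}`,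
`u < v`. -/
instance : Mul (GG Γ R) :=
  ⟨fun g h => ⟨g.x + h.x, fun e => g.z e + h.z e + g.x e.1.inf * h.x e.1.sup⟩⟩

instance : One (GG Γ R) := ⟨⟨0, 0⟩⟩

instance : Inv (GG Γ R) :=
  ⟨fun g => ⟨-g.x, fun e => -g.z e + g.x e.1.inf * g.x e.1.sup⟩⟩

@[simp] theorem mul_x (g h : GG Γ R) : (g * h).x = g.x + h.x := rfl
@[simp] theorem mul_z (g h : GG Γ R) (e : Γ.edgeSet) :
    (g * h).z e = g.z e + h.z e + g.x e.1.inf * h.x e.1.sup := rfl
@[simp] theorem one_x : (1 : GG Γ R).x = 0 := rfl
@[simp] theorem one_z : (1 : GG Γ R).z = 0 := rfl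
@[simp] theorem inv_x (g : GG Γ R) : (g⁻¹).x = -g.x := rfl
@[simp] theorem inv_z (g : GG Γ R) (e : Γ.edgeSet) :
    (g⁻¹).z e = -g.z e + g.x e.1.inf * g.x e.1.sup := rfl

instance : Group (GG Γ R) :=
  Group.ofLeftAxioms
    (by
      intro a b c
      ext e
      · simp [add_assoc]
      · simp only [mul_z, mul_x, Pi.add_apply]; ring)
    (by
      intro a
      ext e
      · simp
      · simp)
    (by
      intro a
      ext e
      · simp
      · simp)

/-- The pairs of vectors (given as a family of elements of `R²`) whose images commute. -/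
def Good (Γ : SimpleGraph V) (w : V → R × R) : Prop :=
  ∀ u v, Γ.Adj u v → (w u).1 * (w v).2 = (w v).1 * (w u).2

/-- The number of families `w : V → R²` with `det (w u, w v) = 0` for all edges. -/
noncomputable def numGood (Γ : SimpleGraph V) (R : Type*) [CommRing R] : ℕ :=
  Nat.card {w : V → R × R // Good Γ w}

theorem commute_iff (g h : GG Γ R) :
    Commute g h ↔ Good Γ (fun v => (g.x v, h.x v)) := by
  have key : Commute g h ↔ ∀ e : Γ.edgeSet, g.x e.1.inf * h.x e.1.sup = h.x e.1.inf * g.x e.1.sup := by
    constructor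
    · intro hc e
      have := congrArg (fun k => GG.z k e) hc
      simp only [mul_z] at this
      linear_combination this
    · intro hc
      change g * h = h * g
      ext e
      · simp [add_comm]
      · simp only [mul_z]
        linear_combination hc e
  rw [key]
  constructor
  · intro hc u v huv
    have := hc ⟨s(u, v), huv⟩
    simp only [Sym2.inf_mk, Sym2.sup_mk] at this
    rcases le_total u v with h1 | h1
    · rw [inf_eq_left.2 h1, sup_eq_right.2 h1] at this
      simp only
      linear_combination this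
    · rw [inf_eq_right.2 h1, sup_eq_left.2 h1] at this
      simp only
      linear_combination -this
  · rintro hc ⟨e, he⟩
    induction e using Sym2.ind with
    | _ u v =>
      have := hc u v he
      simp only at this
      simp only [Sym2.inf_mk, Sym2.sup_mk]
      rcases le_total u v with h1 | h1
      · rw [inf_eq_left.2 h1, sup_eq_right.2 h1]
        linear_combination this
      · rw [inf_eq_right.2 h1, sup_eq_left.2 h1]
        linear_combination -this

/-- The underlying set of the group. -/
def ggEquiv (Γ : SimpleGraph V) (R : Type*) : GG Γ R ≃ (V → R) × (Γ.edgeSet → R) where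
  toFun g := (g.x, g.z)
  invFun p := ⟨p.1, p.2⟩
  left_inv _ := rfl
  right_inv _ := rfl

/-- Commuting pairs. -/
def commEquiv (Γ : SimpleGraph V) (R : Type*) [CommRing R] :
    {p : GG Γ R × GG Γ R // Commute p.1 p.2} ≃
      {w : V → R × R // Good Γ w} × ((Γ.edgeSet → R) × (Γ.edgeSet → R)) where
  toFun p := (⟨fun v => (p.1.1.x v, p.1.2.x v), (commute_iff _ _).1 p.2⟩, (p.1.1.z, p.1.2.z))
  invFun q := ⟨(⟨fun v => (q.1.1 v).1, q.2.1⟩, ⟨fun v => (q.1.1 v).2, q.2.2⟩),
    (commute_iff _ _).2 q.1.2⟩
  left_inv _ := rfl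
  right_inv _ := rfl

/-- `k(G_Γ(R)) |R|^n = N |R|^m`. -/
theorem classNumber_mul [Fintype V] [Finite R] :
    classNumber (GG Γ R) * Nat.card R ^ Fintype.card V =
      numGood Γ R * Nat.card R ^ Nat.card Γ.edgeSet := by
  have h1 := card_comm_eq_card_conjClasses_mul_card (GG Γ R)
  rw [Nat.card_congr (commEquiv Γ R), Nat.card_congr (ggEquiv Γ R), Nat.card_prod, Nat.card_prod,
    Nat.card_prod] at h1
  have h2 : Nat.card (Γ.edgeSet → R) = Nat.card R ^ Nat.card Γ.edgeSet := Nat.card_fun
  have h3 : Nat.card (V → R) = Nat.card R ^ Fintype.card V := by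
    rw [Nat.card_fun, Nat.card_eq_fintype_card (α := V)]
  rw [h2, h3] at h1
  have h4 : 0 < Nat.card R ^ Nat.card Γ.edgeSet := by
    have : 0 < Nat.card R := Nat.card_pos
    positivity
  apply Nat.eq_of_mul_eq_mul_right h4
  unfold classNumber numGood
  rw [mul_assoc, mul_assoc]
  exact h1.symm

theorem numGood_pos [Finite V] [Finite R] : 0 < numGood Γ R := by
  unfold numGood
  have : Nonempty {w : V → R × R // Good Γ w} := ⟨⟨0, fun u v _ => by simp⟩⟩
  exact Nat.card_pos

end

/-- Good families over a product ring. -/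
def goodProd (Γ : SimpleGraph V) (R S : Type*) [CommRing R] [CommRing S] :
    {w : V → (R × S) × (R × S) // Good Γ w} ≃
      {w : V → R × R // Good Γ w} × {w : V → S × S // Good Γ w} where
  toFun w := (⟨fun v => ((w.1 v).1.1, (w.1 v).2.1), fun u v h => congrArg Prod.fst (w.2 u v h)⟩,
    ⟨fun v => ((w.1 v).1.2, (w.1 v).2.2), fun u v h => congrArg Prod.snd (w.2 u v h)⟩)
  invFun p := ⟨fun v => (((p.1.1 v).1, (p.2.1 v).1), ((p.1.1 v).2, (p.2.1 v).2)),
    fun u v h => Prod.ext (p.1.2 u v h) (p.2.2 u v h)⟩
  left_inv _ := rfl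
  right_inv _ := rfl

theorem numGood_prod (Γ : SimpleGraph V) (R S : Type*) [CommRing R] [CommRing S] :
    numGood Γ (R × S) = numGood Γ R * numGood Γ S := by
  unfold numGood
  rw [Nat.card_congr (goodProd Γ R S), Nat.card_prod]

/-- Good families and ring isomorphisms. -/
def goodCongr (Γ : SimpleGraph V) {R S : Type*} [CommRing R] [CommRing S] (e : R ≃+* S) :
    {w : V → R × R // Good Γ w} ≃ {w : V → S × S // Good Γ w} where
  toFun w := ⟨fun v => (e (w.1 v).1, e (w.1 v).2), fun u v h => by
    simp only [← map_mul, w.2 u v h]⟩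
  invFun w := ⟨fun v => (e.symm (w.1 v).1, e.symm (w.1 v).2), fun u v h => by
    simp only [← map_mul, w.2 u v h]⟩
  left_inv w := by ext v <;> simp
  right_inv w := by ext v <;> simp

theorem numGood_congr (Γ : SimpleGraph V) {R S : Type*} [CommRing R] [CommRing S] (e : R ≃+* S) :
    numGood Γ R = numGood Γ S := Nat.card_congr (goodCongr Γ e)

theorem classNumber_prod (Γ : SimpleGraph V) (R S : Type*) [CommRing R] [CommRing S]
    [Fintype V] [Finite R] [Finite S] :
    classNumber (GG Γ (R × S)) = classNumber (GG Γ R) * classNumber (GG Γ S) := by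
  have h := classNumber_mul (Γ := Γ) (R := R × S)
  have h1 := classNumber_mul (Γ := Γ) (R := R)
  have h2 := classNumber_mul (Γ := Γ) (R := S)
  rw [numGood_prod, Nat.card_prod, mul_pow, mul_pow] at h
  have hR : 0 < Nat.card R := Nat.card_pos
  have hS : 0 < Nat.card S := Nat.card_pos
  apply Nat.eq_of_mul_eq_mul_right
    (show 0 < Nat.card R ^ Fintype.card V * Nat.card S ^ Fintype.card V by positivity)
  rw [h]
  calc _ = (numGood Γ R * Nat.card R ^ Nat.card Γ.edgeSet) *
      (numGood Γ S * Nat.card S ^ Nat.card Γ.edgeSet) := by ring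
    _ = _ := by rw [← h1, ← h2]; ring

theorem classNumber_congr (Γ : SimpleGraph V) {R S : Type*} [CommRing R] [CommRing S]
    [Fintype V] [Finite R] [Finite S] (e : R ≃+* S) :
    classNumber (GG Γ R) = classNumber (GG Γ S) := by
  have h1 := classNumber_mul (Γ := Γ) (R := R)
  have h2 := classNumber_mul (Γ := Γ) (R := S)
  rw [numGood_congr Γ e, Nat.card_congr e.toEquiv] at h1
  have hS : 0 < Nat.card S := Nat.card_pos
  apply Nat.eq_of_mul_eq_mul_right (show 0 < Nat.card S ^ Fintype.card V by positivity)
  rw [h1, h2]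

end Q27.Graphical
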