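import Pool.Agent.Q27.Graphical.Chain

/-!
# Examples of finite chain rings: `ZMod (p^k)` and the quotients of discrete valuation rings
-/

set_option autoImplicit false
set_option linter.unusedSectionVars false

open Finset

namespace Q27.Graphical

theorem isChain_zmod (p k : ℕ) [hp : Fact p.Prime] : IsChain (ZMod (p ^ k)) (p : ZMod (p ^ k)) p k := by
  have hp1 : p.Prime := hp.out
  have hpos : 0 < p ^ k := pow_pos hp1.pos k
  have hne : NeZero (p ^ k) := ⟨hpos.ne'⟩
  refine ⟨hp1.two_le, ?_, ?_, inferInstance⟩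
  · intro x
    by_cases hx : x = 0
    · refine ⟨k, le_rfl, 1, ?_⟩
      subst hx
      simp only [Units.val_one, mul_one]
      rw [← Nat.cast_pow, ZMod.natCast_self]
    · have hv : x.val ≠ 0 := by
        intro h0
        exact hx ((ZMod.val_eq_zero x).1 h0)
      obtain ⟨i, m, hm, hi⟩ := Nat.exists_eq_pow_mul_and_not_dvd hv p hp1.ne_one
      have hlt : x.val < p ^ k := ZMod.val_lt x
      have hik : i ≤ k := by
        by_contra hlt2
        push Not at hlt2
        have h1 : p ^ k ≤ p ^ i := Nat.pow_le_pow_right hp1.pos hlt2.le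
        have h2 : 0 < m := Nat.pos_of_ne_zero (by rintro rfl; simp at hm)
        have h3 : p ^ i ≤ p ^ i * m := Nat.le_mul_of_pos_right _ h2
        omega
      have hc : m.Coprime (p ^ k) := by
        apply Nat.Coprime.pow_right
        exact ((Nat.Prime.coprime_iff_not_dvd hp1).2 hm).symm
      refine ⟨i, hik, ZMod.unitOfCoprime m hc, ?_⟩
      rw [ZMod.coe_unitOfCoprime]
      calc x = ((x.val : ℕ) : ZMod (p ^ k)) := (ZMod.natCast_zmod_val x).symm
        _ = _ := by rw [hi]; push_cast; rfl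
  · intro i hi
    have h1 : Nat.card {x : ZMod (p ^ k) // (p : ZMod (p ^ k)) ^ i ∣ x} =
        Nat.card (AddSubgroup.zmultiples (((p ^ i : ℕ) : ZMod (p ^ k)))) := by
      refine Nat.card_congr (Equiv.subtypeEquivRight (fun x => ?_))
      rw [AddSubgroup.mem_zmultiples_iff]
      constructor
      · rintro ⟨c, rfl⟩
        refine ⟨(c.val : ℤ), ?_⟩
        simp only [zsmul_eq_mul]
        push_cast
        rw [ZMod.natCast_zmod_val, mul_comm]
      · rintro ⟨z, rfl⟩
        refine ⟨(z : ZMod (p ^ k)), ?_⟩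
        simp only [zsmul_eq_mul]
        push_cast
        rw [mul_comm]
    rw [h1, Nat.card_zmultiples, ZMod.addOrderOf_coe _ hpos.ne']
    have h2 : (p ^ k).gcd (p ^ i) = p ^ i := Nat.gcd_eq_right (pow_dvd_pow p hi)
    rw [h2, Nat.pow_div hi hp1.pos]

open IsLocalRing

theorem isChain_dvr (O : Type*) [CommRing O] [IsDomain O] [IsDiscreteValuationRing O]
    [Finite (O ⧸ maximalIdeal O)] (k : ℕ) {ϖ : O} (hϖ : Irreducible ϖ) :
    IsChain (O ⧸ maximalIdeal O ^ k) (Ideal.Quotient.mk _ ϖ) (Nat.card (O ⧸ maximalIdeal O)) k := by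
  have hspan : maximalIdeal O = Ideal.span {ϖ} := hϖ.maximalIdeal_eq
  have hmem : ∀ (j : ℕ) (x : O), x ∈ maximalIdeal O ^ j ↔ ϖ ^ j ∣ x := by
    intro j x
    rw [hspan, Ideal.span_singleton_pow, Ideal.mem_span_singleton]
  have hcard : ∀ j, Nat.card (O ⧸ maximalIdeal O ^ j) = Nat.card (O ⧸ maximalIdeal O) ^ j := by
    intro j
    have := cardQuot_pow_of_prime (P := maximalIdeal O) (IsDiscreteValuationRing.not_a_field O)
      (i := j)
    simpa [Submodule.cardQuot_apply] using this
  have htwo : 2 ≤ Nat.card (O ⧸ maximalIdeal O) := by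
    have : Nontrivial (O ⧸ maximalIdeal O) :=
      Ideal.Quotient.nontrivial_iff.2 (maximalIdeal.isMaximal O).ne_top
    exact Finite.one_lt_card
  have hfin : ∀ j, Finite (O ⧸ maximalIdeal O ^ j) := by
    intro j
    apply Nat.finite_of_card_ne_zero
    rw [hcard]
    positivity
  refine ⟨htwo, ?_, ?_, hfin k⟩
  · intro x
    obtain ⟨y, rfl⟩ := Ideal.Quotient.mk_surjective x
    by_cases hy : ϖ ^ k ∣ y
    · refine ⟨k, le_rfl, 1, ?_⟩
      rw [Units.val_one, mul_one, ← map_pow]
      rw [(Ideal.Quotient.eq_zero_iff_mem).2 ((hmem k y).2 hy),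
        (Ideal.Quotient.eq_zero_iff_mem).2 ((hmem k _).2 dvd_rfl)]
    · have hy0 : y ≠ 0 := by rintro rfl; exact hy (dvd_zero _)
      obtain ⟨i, u, hu⟩ := IsDiscreteValuationRing.eq_unit_mul_pow_irreducible hy0 hϖ
      have hik : i ≤ k := by
        by_contra hlt
        push Not at hlt
        exact hy (hu ▸ Dvd.dvd.mul_left (pow_dvd_pow _ hlt.le) _)
      refine ⟨i, hik, Units.map (Ideal.Quotient.mk _).toMonoidHom u, ?_⟩
      rw [hu, map_mul, map_pow, mul_comm]
      rfl
  · intro i hi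
    rw [← hcard (k - i)]
    symm
    let f : O →+ (O ⧸ maximalIdeal O ^ k) :=
      { toFun := fun x => Ideal.Quotient.mk _ (ϖ ^ i * x)
        map_zero' := by simp
        map_add' := by intro x y; simp [mul_add] }
    have hker : f.ker = (maximalIdeal O ^ (k - i)).toAddSubgroup := by
      ext x
      rw [AddMonoidHom.mem_ker]
      change Ideal.Quotient.mk _ (ϖ ^ i * x) = 0 ↔ x ∈ maximalIdeal O ^ (k - i)
      rw [Ideal.Quotient.eq_zero_iff_mem, hmem, hmem]
      have h1 : ϖ ^ k = ϖ ^ i * ϖ ^ (k - i) := by rw [← pow_add, Nat.add_sub_cancel' hi]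
      rw [h1, mul_dvd_mul_iff_left (pow_ne_zero _ hϖ.ne_zero)]
    have hrange : ∀ x : O ⧸ maximalIdeal O ^ k,
        x ∈ f.range ↔ (Ideal.Quotient.mk (maximalIdeal O ^ k) ϖ) ^ i ∣ x := by
      intro x
      rw [AddMonoidHom.mem_range]
      constructor
      · rintro ⟨y, rfl⟩
        refine ⟨Ideal.Quotient.mk _ y, ?_⟩
        change Ideal.Quotient.mk _ (ϖ ^ i * y) = _
        rw [map_mul, map_pow]
      · rintro ⟨c, rfl⟩
        obtain ⟨y, rfl⟩ := Ideal.Quotient.mk_surjective c
        refine ⟨y, ?_⟩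
        change Ideal.Quotient.mk _ (ϖ ^ i * y) = _
        rw [map_mul, map_pow]
    calc Nat.card (O ⧸ maximalIdeal O ^ (k - i))
        = Nat.card (O ⧸ (maximalIdeal O ^ (k - i)).toAddSubgroup) := rfl
      _ = Nat.card (O ⧸ f.ker) := by rw [hker]
      _ = Nat.card f.range :=
          Nat.card_congr (QuotientAddGroup.quotientKerEquivRange f).toEquiv
      _ = _ := Nat.card_congr (Equiv.subtypeEquivRight hrange)

end Q27.Graphical
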