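import Mathlib

/-!
# Poles of meromorphic continuations of series with nonnegative coefficients
-/

set_option autoImplicit false

open Filter Topology

namespace Q27.Graphical

/-- The terms of a series `∑ c_k q^{-ks}`. -/
noncomputable def tm (c : ℕ → ℝ) (q : ℕ) (s : ℂ) (k : ℕ) : ℂ :=
  (c k : ℂ) * (q : ℂ) ^ (-((k : ℂ) * s))

theorem norm_tm {c : ℕ → ℝ} (hc : ∀ k, 0 ≤ c k) {q : ℕ} (hq : 0 < q) (s : ℂ) (k : ℕ) :
    ‖tm c q s k‖ = c k * (q : ℝ) ^ (-((k : ℝ) * s.re)) := by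
  unfold tm
  rw [norm_mul, Complex.norm_natCast_cpow_of_pos hq, Complex.norm_real, Real.norm_of_nonneg (hc k)]
  simp

theorem differentiable_tm (c : ℕ → ℝ) {q : ℕ} (hq : 0 < q) (k : ℕ) :
    Differentiable ℂ (fun s => tm c q s k) := by
  unfold tm
  have h0 : (q : ℂ) ≠ 0 := by exact_mod_cast hq.ne'
  intro s
  apply DifferentiableAt.const_mul
  apply DifferentiableAt.const_cpow
  · fun_prop
  · exact Or.inl h0

theorem pole_of_diverges {c : ℕ → ℝ} (hc : ∀ k, 0 ≤ c k) {q : ℕ} (hq : 2 ≤ q) {σ₀ : ℝ}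
    (hsum : ∀ σ : ℝ, σ₀ < σ → Summable (fun k : ℕ => c k * (q : ℝ) ^ (-((k : ℝ) * σ))))
    (hdiv : ∀ M : ℝ, ∃ J : Finset ℕ, M < ∑ k ∈ J, c k * (q : ℝ) ^ (-((k : ℝ) * σ₀)))
    {F : ℂ → ℂ} (hF : ∀ z, MeromorphicAt F z) {σ₁ : ℝ}
    (hFe : ∀ s : ℂ, σ₁ < s.re → F s = ∑' k, tm c q s k) :
    meromorphicOrderAt F (σ₀ : ℂ) < 0 := by
  have hq0 : 0 < q := by omega
  have hq0' : (0 : ℝ) < q := by exact_mod_cast hq0
  set G : ℂ → ℂ := fun s => ∑' k, tm c q s k with hG
  set U : Set ℂ := {s : ℂ | σ₀ < s.re} with hU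
  have hUo : IsOpen U := isOpen_lt continuous_const Complex.continuous_re
  have hUc : IsPreconnected U := (convex_halfSpace_re_gt σ₀).isPreconnected
  -- differentiability
  have hsC : ∀ s ∈ U, Summable (tm c q s) := by
    intro s hs
    rw [← summable_norm_iff]
    refine (hsum s.re hs).congr (fun k => ?_)
    rw [norm_tm hc hq0]
  have hdiff : DifferentiableOn ℂ G U := by
    intro s hs
    obtain ⟨σ, h1, h2⟩ := exists_between (show σ₀ < s.re from hs)
    have hV : IsOpen {z : ℂ | σ < z.re} := isOpen_lt continuous_const Complex.continuous_re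
    have h3 : DifferentiableOn ℂ G {z : ℂ | σ < z.re} := by
      apply Complex.differentiableOn_tsum_of_summable_norm (hsum σ h1)
      · intro k
        exact (differentiable_tm c hq0 k).differentiableOn
      · exact hV
      · intro k w hw
        rw [norm_tm hc hq0]
        apply mul_le_mul_of_nonneg_left _ (hc k)
        apply Real.rpow_le_rpow_of_exponent_le
        · exact_mod_cast hq0
        · have : σ < w.re := hw
          have hk : (0 : ℝ) ≤ k := Nat.cast_nonneg k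
          nlinarith
    exact ((h3 s h2).differentiableAt (hV.mem_nhds h2)).differentiableWithinAt
  have hGan : ∀ s ∈ U, AnalyticAt ℂ G s := fun s hs => hdiff.analyticAt (hUo.mem_nhds hs)
  -- `F = G` near the points of `U`
  have hFG : ∀ x ∈ U, ∀ᶠ z in 𝓝[≠] x, F z = G z := by
    intro x hx
    have hH : MeromorphicOn (F - G) U := fun s hs => (hF s).sub (hGan s hs).meromorphicAt
    set y : ℂ := ((max σ₀ σ₁ + 1 : ℝ) : ℂ) with hy
    have hyU : y ∈ U := by
      change σ₀ < y.re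
      rw [hy, Complex.ofReal_re]
      have := le_max_left σ₀ σ₁
      linarith
    have hy1 : σ₁ < y.re := by
      rw [hy, Complex.ofReal_re]
      have := le_max_right σ₀ σ₁
      linarith
    have hytop : meromorphicOrderAt (F - G) y = ⊤ := by
      rw [meromorphicOrderAt_eq_top_iff]
      have h4 : ∀ᶠ z in 𝓝 y, σ₁ < z.re :=
        (isOpen_lt continuous_const Complex.continuous_re).mem_nhds hy1
      refine (h4.filter_mono nhdsWithin_le_nhds).mono (fun z hz => ?_)
      rw [Pi.sub_apply, hFe z hz, sub_self]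
    have hxtop : meromorphicOrderAt (F - G) x = ⊤ := by
      by_contra hne
      exact hH.meromorphicOrderAt_ne_top_of_isPreconnected hUc hx hyU hne hytop
    rw [meromorphicOrderAt_eq_top_iff] at hxtop
    exact hxtop.mono (fun z hz => sub_eq_zero.1 hz)
  -- boundedness
  by_contra hneg
  rw [not_lt] at hneg
  obtain ⟨b, hb⟩ := tendsto_nhds_of_meromorphicOrderAt_nonneg (hF _) hneg
  have hb1 : ∀ᶠ z in 𝓝[≠] (σ₀ : ℂ), ‖F z‖ < ‖b‖ + 1 :=
    hb.norm.eventually_lt_const (by linarith)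
  rw [eventually_nhdsWithin_iff, Metric.eventually_nhds_iff] at hb1
  obtain ⟨δ, hδ, hb2⟩ := hb1
  obtain ⟨J, hJ⟩ := hdiv (‖b‖ + 1)
  -- a real point `x > σ₀` close to `σ₀` with large value of `G`
  have hcont : Continuous (fun x : ℝ => ∑ k ∈ J, c k * (q : ℝ) ^ (-((k : ℝ) * x))) := by
    apply continuous_finsetSum
    intro k _
    apply Continuous.mul continuous_const
    apply Continuous.rpow continuous_const (by fun_prop)
    intro _
    exact Or.inl hq0'.ne'
  have h5 : ∀ᶠ x in 𝓝[>] σ₀, ‖b‖ + 1 < ∑ k ∈ J, c k * (q : ℝ) ^ (-((k : ℝ) * x)) :=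
    (hcont.continuousAt.eventually_const_lt hJ).filter_mono nhdsWithin_le_nhds
  have h6 : ∀ᶠ x in 𝓝[>] σ₀, x < σ₀ + δ :=
    (eventually_lt_nhds (show σ₀ < σ₀ + δ by linarith)).filter_mono nhdsWithin_le_nhds
  obtain ⟨x, ⟨hx1, hx2⟩, hx3⟩ := ((h5.and h6).and self_mem_nhdsWithin).exists
  have hx3' : σ₀ < x := hx3
  have hxU : (x : ℂ) ∈ U := by
    change σ₀ < (x : ℂ).re
    rw [Complex.ofReal_re]
    exact hx3'
  have hGx : ‖b‖ + 1 < ‖G x‖ := by
    have h7 : G x = ((∑' k, c k * (q : ℝ) ^ (-((k : ℝ) * x)) : ℝ) : ℂ) := by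
      rw [hG, Complex.ofReal_tsum]
      simp only
      congr 1
      funext k
      unfold tm
      rw [Complex.ofReal_mul, Complex.ofReal_cpow hq0'.le]
      push_cast
      rfl
    rw [h7, Complex.norm_real, Real.norm_of_nonneg
      (tsum_nonneg (fun k => mul_nonneg (hc k) (by positivity)))]
    refine lt_of_lt_of_le hx1 ?_
    exact (hsum x hx3').sum_le_tsum _ (fun k _ => mul_nonneg (hc k) (by positivity))
  have h8 : ∀ᶠ z : ℂ in 𝓝[≠] (x : ℂ), ‖b‖ + 1 < ‖G z‖ :=
    ((hGan _ hxU).continuousAt.norm.eventually_const_lt hGx).filter_mono nhdsWithin_le_nhds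
  have h9 : ∀ᶠ z : ℂ in 𝓝[≠] (x : ℂ), dist z σ₀ < δ := by
    have h10 : dist (x : ℂ) (σ₀ : ℂ) < δ := by
      rw [Complex.dist_of_im_eq (by simp), Complex.ofReal_re, Complex.ofReal_re, Real.dist_eq,
        abs_of_pos (by linarith)]
      linarith
    have h11 : ContinuousAt (fun z : ℂ => dist z (σ₀ : ℂ)) (x : ℂ) := by fun_prop
    exact (h11.eventually_lt_const h10).filter_mono nhdsWithin_le_nhds
  have h12 : ∀ᶠ z : ℂ in 𝓝[≠] (x : ℂ), z ≠ σ₀ := by
    have h13 : (x : ℂ) ≠ (σ₀ : ℂ) := by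
      intro h
      have := Complex.ofReal_injective h
      linarith
    have h14 : ∀ᶠ z : ℂ in 𝓝 (x : ℂ), z ≠ σ₀ := isOpen_ne.mem_nhds h13
    exact h14.filter_mono nhdsWithin_le_nhds
  obtain ⟨z, hz1, hz2, hz3, hz4⟩ := ((hFG _ hxU).and (h8.and (h9.and h12))).exists
  have := hb2 hz3 hz4
  rw [hz1] at this
  linarith

end Q27.Graphical
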