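import Pool.Agent.Q27.Graphical.Corona

/-!
# A graph with ten vertices: local estimates
-/

set_option autoImplicit false
set_option linter.unusedSectionVars false

open Finset

namespace Q27.Graphical

/-- The edges. The vertices `0, 1, 2, 3` have private neighbours `4, 5, 6, 7`; the vertices `8`
and `9` are adjacent to `2, 3, 4, 5` and to `0, 1, 2, 3`; and `0` and `1` are adjacent. -/
def edges : List (Fin 10 × Fin 10) :=
  [(0, 1), (0, 4), (1, 5), (2, 6), (3, 7), (4, 8), (5, 8), (2, 8), (3, 8), (0, 9), (1, 9), (2, 9),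
    (3, 9)]

/-- The graph. -/
def gr : SimpleGraph (Fin 10) where
  Adj u v := (u, v) ∈ edges ∨ (v, u) ∈ edges
  symm := ⟨fun _ _ h => h.symm⟩
  loopless := ⟨by decide⟩

instance : DecidableRel gr.Adj := fun u v => by
  unfold gr
  infer_instance

theorem card_gr : Nat.card gr.edgeSet = 13 := by
  rw [Nat.card_eq_fintype_card, ← SimpleGraph.edgeFinset_card]
  decide +kernel

/-- The first forest. -/
def F1 : List (Fin 10 × Option (Fin 10)) :=
  [(7, some 3), (3, some 9), (6, some 2), (2, some 9), (1, some 5), (5, some 8), (8, some 4),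
    (4, some 0), (0, some 9), (9, none)]

/-- The second forest. -/
def F2 : List (Fin 10 × Option (Fin 10)) :=
  [(7, some 3), (3, some 9), (6, some 2), (2, some 9), (8, some 5), (5, some 1), (4, some 0),
    (0, some 1), (1, some 9), (9, none)]

/-- The third forest. -/
def F3 : List (Fin 10 × Option (Fin 10)) :=
  [(9, none), (7, some 3), (3, some 8), (6, some 2), (2, some 8), (8, some 4), (4, some 0),
    (5, some 1), (1, some 0), (0, none)]

theorem F1_valid : Valid F1 := by simp [F1, Valid]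
theorem F2_valid : Valid F2 := by simp [F2, Valid]
theorem F3_valid : Valid F3 := by simp [F3, Valid]

theorem F1_all (v : Fin 10) : v ∈ F1.map Prod.fst := by revert v; decide
theorem F2_all (v : Fin 10) : v ∈ F2.map Prod.fst := by revert v; decide
theorem F3_all (v : Fin 10) : v ∈ F3.map Prod.fst := by revert v; decide

theorem F1_adj (v u : Fin 10) (h : (v, some u) ∈ F1) : gr.Adj u v := by revert v u; decide
theorem F2_adj (v u : Fin 10) (h : (v, some u) ∈ F2) : gr.Adj u v := by revert v u; decide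
theorem F3_adj (v u : Fin 10) (h : (v, some u) ∈ F3) : gr.Adj u v := by revert v u; decide

theorem sum_le (k : ℕ) (a : Fin 10 → ℕ) (ha : ∀ v, a v ≤ k) :
    (F1.map (ex k a)).sum + (F2.map (ex k a)).sum + (F3.map (ex k a)).sum ≤ 34 * k := by
  have h0 := ha 0
  have h1 := ha 1
  have h2 := ha 2
  have h3 := ha 3
  have h4 := ha 4
  have h5 := ha 5
  have h6 := ha 6
  have h7 := ha 7
  have h8 := ha 8
  have h9 := ha 9
  have e73 := ex_some_le k a 7 3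
  have e39 := ex_some_le k a 3 9
  have e62 := ex_some_le k a 6 2
  have e29 := ex_some_le k a 2 9
  have e15 := ex_some_le k a 1 5
  have e58 := ex_some_le k a 5 8
  have e84 := ex_some_le k a 8 4
  have e40 := ex_some_le k a 4 0
  have e09 := ex_some_le k a 0 9
  have e85 := ex_some_le k a 8 5
  have e51 := ex_some_le k a 5 1
  have e01 := ex_some_le k a 0 1
  have e19 := ex_some_le k a 1 9
  have e38 := ex_some_le k a 3 8
  have e28 := ex_some_le k a 2 8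
  have e10 := ex_some_le k a 1 0
  have e9 : ex k a (9, none) = 2 * (k - a 9) := rfl
  have e0 : ex k a (0, none) = 2 * (k - a 0) := rfl
  simp only [F1, F2, F3, List.map_cons, List.map_nil, List.sum_cons, List.sum_nil]
  rw [e9, e0]
  omega

theorem IsChain.numGood_gr_le {R : Type*} [CommRing R] {ϖ : R} {q k : ℕ}
    (h : IsChain R ϖ q k) :
    (numGood gr R : ℝ) ≤ (k + 1) ^ 10 * (q : ℝ) ^ ((34 / 3 : ℝ) * k) := by
  have hq : 2 ≤ q := h.two_le
  have h1 := h.numGood_le gr ((q : ℝ) ^ ((34 / 3 : ℝ) * k)) ?_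
  · simpa using h1
  · intro _ _ a ha S hS
    have b1 := h.forest_bound a ha S (fun w hw => (hS w hw).1) F1 F1_valid
      F1_all (fun w hw v u hvu => (hS w hw).2 u v (F1_adj v u hvu))
    have b2 := h.forest_bound a ha S (fun w hw => (hS w hw).1) F2 F2_valid
      F2_all (fun w hw v u hvu => (hS w hw).2 u v (F2_adj v u hvu))
    have b3 := h.forest_bound a ha S (fun w hw => (hS w hw).1) F3 F3_valid
      F3_all (fun w hw v u hvu => (hS w hw).2 u v (F3_adj v u hvu))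
    have h2 : #S ^ 3 ≤ q ^ (34 * k) := by
      calc #S ^ 3 = #S * #S * #S := by ring
        _ ≤ q ^ ((F1.map (ex k a)).sum) * q ^ ((F2.map (ex k a)).sum) *
            q ^ ((F3.map (ex k a)).sum) := by gcongr
        _ = q ^ ((F1.map (ex k a)).sum + (F2.map (ex k a)).sum + (F3.map (ex k a)).sum) := by
            rw [pow_add, pow_add]
        _ ≤ q ^ (34 * k) := Nat.pow_le_pow_right (by omega) (sum_le k a ha)
    have h3 : ((#S : ℝ)) ^ 3 ≤ ((q : ℝ) ^ ((34 / 3 : ℝ) * k)) ^ 3 := by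
      rw [← Real.rpow_natCast ((q : ℝ) ^ ((34 / 3 : ℝ) * k)), ← Real.rpow_mul (by positivity)]
      have h4 : (34 / 3 : ℝ) * k * (3 : ℕ) = ((34 * k : ℕ) : ℝ) := by push_cast; ring
      rw [h4, Real.rpow_natCast]
      exact_mod_cast h2
    exact le_of_pow_le_pow_left₀ (by norm_num) (by positivity) h3

theorem IsChain.isUnit_one_add {R : Type*} [CommRing R] {ϖ : R} {q k : ℕ} (h : IsChain R ϖ q k)
    (hk : 1 ≤ k) {z : R} (hz : ϖ ∣ z) : IsUnit (1 + z) := by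
  obtain ⟨i, hi, u, hu⟩ := h.fact (1 + z)
  rcases Nat.eq_zero_or_pos i with rfl | hi0
  · rw [hu, pow_zero, one_mul]
    exact u.isUnit
  · exfalso
    have h1 : ϖ ∣ 1 + z := by
      rw [hu]
      exact Dvd.dvd.mul_right (dvd_pow_self _ (by omega)) _
    have h2 : ϖ ∣ 1 := (dvd_add_left hz).1 h1
    have h3 : IsUnit ϖ := isUnit_of_dvd_one h2
    have h4 := h.pow_ne_zero (i := 0) (by omega)
    have h5 : IsUnit (ϖ ^ k) := h3.pow k
    rw [h.pow_eq_zero, isUnit_zero_iff] at h5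
    rw [pow_zero] at h4
    exact h4 h5.symm

/-- The parameters of a family of good configurations. -/
def Par (R : Type*) [CommRing R] (ϖ : R) (j : ℕ) : Type _ :=
  R × {z : R // ϖ ^ 1 ∣ z} × {z : R // ϖ ^ 1 ∣ z} × {a : R // ϖ ^ j ∣ a} × {a : R // ϖ ^ j ∣ a} ×
    {a : R // ϖ ^ j ∣ a} × {a : R // ϖ ^ (2 * j) ∣ a} × Blob R ϖ j × Blob R ϖ j ×
    {w' : R × R // ϖ ^ (2 * j) ∣ w'.1 ∧ ϖ ^ (2 * j) ∣ w'.2}

theorem IsChain.card_par {R : Type*} [CommRing R] {ϖ : R} {q j : ℕ} (h : IsChain R ϖ q (3 * j))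
    (hj : 1 ≤ j) : q ^ (34 * j) ≤ q ^ 2 * Nat.card (Par R ϖ j) := by
  have h1 := h.le_card_blob (α := j) (by omega)
  unfold Par
  rw [Nat.card_prod, Nat.card_prod, Nat.card_prod, Nat.card_prod, Nat.card_prod, Nat.card_prod,
    Nat.card_prod, Nat.card_prod, Nat.card_prod, h.card_univ, h.card 1 (by omega),
    h.card j (by omega), h.card (2 * j) (by omega), h.card_mult (β := 2 * j) (by omega)]
  calc q ^ (34 * j) = q ^ 2 * (q ^ (3 * j) * (q ^ (3 * j - 1) * (q ^ (3 * j - 1) *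
        (q ^ (3 * j - j) * (q ^ (3 * j - j) * (q ^ (3 * j - j) * (q ^ (3 * j - 2 * j) *
        (q ^ (3 * (3 * j) - j) * (q ^ (3 * (3 * j) - j) * q ^ (2 * (3 * j - 2 * j))))))))))) := by
        simp only [← pow_add]
        congr 1
        omega
    _ ≤ _ := by gcongr

/-- The configuration with given parameters. -/
def conf {R : Type*} [CommRing R] {ϖ : R} {j : ℕ} : Par R ϖ j → (Fin 10 → R × R)
  | (t, x1, x2, a1, a2, r, b, p3, p4, w') =>
    ![(a1.1, a1.1 * t), (a2.1, a2.1 * (t + r.1)), p3.1.1, p4.1.1,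
      (1 + x1.1, (1 + x1.1) * t), (1 + x2.1, (1 + x2.1) * (t + r.1)), p3.1.2, p4.1.2,
      (b.1, b.1 * t), w'.1]

theorem IsChain.conf_good {R : Type*} [CommRing R] {ϖ : R} {q j : ℕ} (h : IsChain R ϖ q (3 * j))
    (π : Par R ϖ j) : Good gr (conf π) := by
  have h0 : ϖ ^ (3 * j) = 0 := h.pow_eq_zero
  have h12 : ϖ ^ j * ϖ ^ (2 * j) = 0 := by rw [← pow_add, ← h0]; congr 1; omega
  have key : ∀ e ∈ edges, (conf π e.1).1 * (conf π e.2).2 = (conf π e.2).1 * (conf π e.1).2 := by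
    obtain ⟨t, ⟨x1, hx1⟩, ⟨x2, hx2⟩, ⟨a1, α1, rfl⟩, ⟨a2, α2, rfl⟩, ⟨r, ρ, rfl⟩, ⟨b, β, rfl⟩,
      ⟨⟨⟨p1, p2⟩, ⟨p3, p4⟩⟩, ⟨⟨π1, hπ1⟩, ⟨π2, hπ2⟩⟩, hπ⟩,
      ⟨⟨⟨s1, s2⟩, ⟨s3, s4⟩⟩, ⟨⟨τ1, hτ1⟩, ⟨τ2, hτ2⟩⟩, hτ⟩, ⟨⟨w1, w2⟩, ⟨⟨ω1, hω1⟩, ⟨ω2, hω2⟩⟩⟩⟩ := π
    simp only at hπ1 hπ2 hτ1 hτ2 hω1 hω2 hπ hτ
    subst hπ1 hπ2 hτ1 hτ2 hω1 hω2
    simp only [edges, List.forall_mem_cons, List.not_mem_nil, false_implies, implies_true,
      and_true]
    have h111 : ϖ ^ j * ϖ ^ j * ϖ ^ j = 0 := by rw [← pow_add, ← pow_add, ← h0]; congr 1; omega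
    refine ⟨?_, ?_, ?_, ?_, ?_, ?_, ?_, ?_, ?_, ?_, ?_, ?_, ?_⟩
    · change ϖ ^ j * α1 * (ϖ ^ j * α2 * (t + ϖ ^ j * ρ)) = ϖ ^ j * α2 * (ϖ ^ j * α1 * t)
      linear_combination (α1 * α2 * ρ) * h111
    · change ϖ ^ j * α1 * ((1 + x1) * t) = (1 + x1) * (ϖ ^ j * α1 * t)
      ring
    · change ϖ ^ j * α2 * ((1 + x2) * (t + ϖ ^ j * ρ)) = (1 + x2) * (ϖ ^ j * α2 * (t + ϖ ^ j * ρ))
      ring
    · exact hπ
    · exact hτ
    · change (1 + x1) * (ϖ ^ (2 * j) * β * t) = ϖ ^ (2 * j) * β * ((1 + x1) * t)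
      ring
    · change (1 + x2) * (ϖ ^ (2 * j) * β * t) = ϖ ^ (2 * j) * β * ((1 + x2) * (t + ϖ ^ j * ρ))
      linear_combination (-(1 + x2) * β * ρ) * h12
    · change ϖ ^ j * π1 * (ϖ ^ (2 * j) * β * t) = ϖ ^ (2 * j) * β * (ϖ ^ j * π2)
      linear_combination (π1 * β * t - β * π2) * h12
    · change ϖ ^ j * τ1 * (ϖ ^ (2 * j) * β * t) = ϖ ^ (2 * j) * β * (ϖ ^ j * τ2)
      linear_combination (τ1 * β * t - β * τ2) * h12
    · change ϖ ^ j * α1 * (ϖ ^ (2 * j) * ω2) = ϖ ^ (2 * j) * ω1 * (ϖ ^ j * α1 * t)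
      linear_combination (α1 * ω2 - ω1 * α1 * t) * h12
    · change ϖ ^ j * α2 * (ϖ ^ (2 * j) * ω2) = ϖ ^ (2 * j) * ω1 * (ϖ ^ j * α2 * (t + ϖ ^ j * ρ))
      linear_combination (α2 * ω2 - ω1 * α2 * (t + ϖ ^ j * ρ)) * h12
    · change ϖ ^ j * π1 * (ϖ ^ (2 * j) * ω2) = ϖ ^ (2 * j) * ω1 * (ϖ ^ j * π2)
      linear_combination (π1 * ω2 - ω1 * π2) * h12
    · change ϖ ^ j * τ1 * (ϖ ^ (2 * j) * ω2) = ϖ ^ (2 * j) * ω1 * (ϖ ^ j * τ2)
      linear_combination (τ1 * ω2 - ω1 * τ2) * h12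
  intro u v huv
  rcases huv with h1 | h1
  · exact key _ h1
  · exact (key _ h1).symm

theorem IsChain.conf_injective {R : Type*} [CommRing R] {ϖ : R} {q j : ℕ}
    (h : IsChain R ϖ q (3 * j)) (hj : 1 ≤ j) : Function.Injective (conf (R := R) (ϖ := ϖ) (j := j)) := by
  rintro ⟨t, ⟨x1, hx1⟩, ⟨x2, hx2⟩, ⟨a1, ha1⟩, ⟨a2, ha2⟩, ⟨r, hr⟩, ⟨b, hb⟩, ⟨⟨p3, p4⟩, hp⟩,
    ⟨⟨s3, s4⟩, hs⟩, ⟨w, hw⟩⟩ ⟨t', ⟨x1', hx1'⟩, ⟨x2', hx2'⟩, ⟨a1', ha1'⟩, ⟨a2', ha2'⟩, ⟨r', hr'⟩,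
    ⟨b', hb'⟩, ⟨⟨p3', p4'⟩, hp'⟩, ⟨⟨s3', s4'⟩, hs'⟩, ⟨w', hw'⟩⟩ heq
  have e0 : (a1, a1 * t) = (a1', a1' * t') := congrFun heq 0
  have e1 : (a2, a2 * (t + r)) = (a2', a2' * (t' + r')) := congrFun heq 1
  have e2 : p3 = p3' := congrFun heq 2
  have e3 : s3 = s3' := congrFun heq 3
  have e4 : (1 + x1, (1 + x1) * t) = (1 + x1', (1 + x1') * t') := congrFun heq 4
  have e5 : (1 + x2, (1 + x2) * (t + r)) = (1 + x2', (1 + x2') * (t' + r')) := congrFun heq 5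
  have e6 : p4 = p4' := congrFun heq 6
  have e7 : s4 = s4' := congrFun heq 7
  have e8 : (b, b * t) = (b', b' * t') := congrFun heq 8
  have e9 : w = w' := congrFun heq 9
  simp only [Prod.mk.injEq, add_right_inj] at e0 e1 e4 e5 e8
  obtain ⟨rfl, e42⟩ := e4
  obtain ⟨rfl, e52⟩ := e5
  have hu1 := h.isUnit_one_add (by omega) (z := x1) (by simpa using hx1)
  have hu2 := h.isUnit_one_add (by omega) (z := x2) (by simpa using hx2)
  have ht := hu1.mul_left_cancel e42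
  subst ht
  have hr2 := add_left_cancel (hu2.mul_left_cancel e52)
  obtain ⟨rfl, _⟩ := e0
  obtain ⟨rfl, _⟩ := e1
  obtain ⟨rfl, _⟩ := e8
  subst e2 e3 e6 e7 e9 hr2
  rfl

theorem IsChain.le_numGood_gr {R : Type*} [CommRing R] {ϖ : R} {q j : ℕ}
    (h : IsChain R ϖ q (3 * j)) (hj : 1 ≤ j) : q ^ (34 * j) ≤ q ^ 2 * numGood gr R := by
  have := h.finite
  refine (h.card_par hj).trans (Nat.mul_le_mul_left _ ?_)
  unfold numGood
  refine Nat.card_le_card_of_injective (fun π : Par R ϖ j => ⟨conf π, h.conf_good π⟩) ?_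
  intro π π' hh
  exact h.conf_injective hj (congrArg (fun t => t.1) hh)

end Q27.Graphical
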